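import Mathlib

/-!
# Minimum `K_3^3`-saturated graphs of even order: `H_n` is never the only one

`K_3^3` (the net) is a triangle with one pendant vertex at each of its three vertices.  For every
even `n ≥ 6` there is a `K_3^3`-saturated graph on `n` vertices with the minimum number
`sat(n, K_3^3)` of edges which is not isomorphic to `H_n = K_1 ∨ ((n-4)/2 K_2 ∪ K_3)`.

The witness is `K_1 ∨ ((n-6)/2 K_2 ∪ K_{1,4})`, which is `K_3^3`-saturated and has as many edges
as `H_n`.
-/

namespace Pool.Agent.Results.MP_645dd0_co.NotUnique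

open SimpleGraph

/-- The graph `K_3^3`: the triangle `0,1,2` with the pendant vertices `3,4,5` attached to
`0,1,2` respectively. -/
def net : SimpleGraph (Fin 6) :=
  SimpleGraph.fromEdgeSet {s(0, 1), s(0, 2), s(1, 2), s(0, 3), s(1, 4), s(2, 5)}

/-- `G` is `F`-saturated: `G` has no (not necessarily induced) subgraph isomorphic to `F`, and
adding any missing edge creates one. -/
def IsSaturated {α V : Type*} (F : SimpleGraph α) (G : SimpleGraph V) : Prop :=
  F.Free G ∧ ∀ u v : V, u ≠ v → ¬ G.Adj u v → F.IsContained (G ⊔ SimpleGraph.edge u v)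

/-- `G ∈ SAT(n, F)`: `G` is an `F`-saturated graph on the vertex set `Fin n` whose number of
edges is the minimum `sat(n, F)` among all `F`-saturated graphs on `Fin n`. -/
def IsMinSaturated {α : Type*} {n : ℕ} (F : SimpleGraph α) (G : SimpleGraph (Fin n)) : Prop :=
  IsSaturated F G ∧
    ∀ G' : SimpleGraph (Fin n), IsSaturated F G' → G.edgeSet.ncard ≤ G'.edgeSet.ncard

/-- The join `G ∨ H`: the disjoint union together with all edges between `G` and `H`. -/
def join {V W : Type*} (G : SimpleGraph V) (H : SimpleGraph W) : SimpleGraph (V ⊕ W) where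
  Adj
    | Sum.inl u, Sum.inl v => G.Adj u v
    | Sum.inr u, Sum.inr v => H.Adj u v
    | _, _ => True
  symm := ⟨by
    rintro (u | u) (v | v) h
    · exact G.adj_symm h
    · trivial
    · trivial
    · exact H.adj_symm h⟩
  loopless := ⟨by
    rintro (u | u) h
    · exact G.irrefl h
    · exact H.irrefl h⟩

/-- `k K_2`: the disjoint union of `k` edges, the `i`-th one joining `(i, 0)` and `(i, 1)`. -/
def matching (k : ℕ) : SimpleGraph (Fin k × Fin 2) where
  Adj x y := x.1 = y.1 ∧ x.2 ≠ y.2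
  symm := ⟨fun _ _ h => ⟨h.1.symm, h.2.symm⟩⟩
  loopless := ⟨fun _ h => h.2 rfl⟩

/-- `H_n = K_1 ∨ ((n-4)/2 K_2 ∪ K_3)`, for even `n ≥ 4`. -/
def Hgraph (n : ℕ) : SimpleGraph (Fin 1 ⊕ (Fin ((n - 4) / 2) × Fin 2 ⊕ Fin 3)) :=
  join (⊤ : SimpleGraph (Fin 1)) ((matching ((n - 4) / 2)).sum (⊤ : SimpleGraph (Fin 3)))

/-- The witness `K_1 ∨ (k K_2 ∪ K_{1,4})`; the star `K_{1,4}` has centre `0 : Fin 5`. -/
def Ggraph (k : ℕ) : SimpleGraph (Fin 1 ⊕ (Fin k × Fin 2 ⊕ Fin 5)) :=
  join (⊤ : SimpleGraph (Fin 1)) ((matching k).sum (SimpleGraph.starGraph (0 : Fin 5)))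


section adj
variable {V W : Type*} {G : SimpleGraph V} {H : SimpleGraph W}

@[simp] lemma join_ll {u v : V} : (join G H).Adj (Sum.inl u) (Sum.inl v) ↔ G.Adj u v := Iff.rfl
@[simp] lemma join_rr {u v : W} : (join G H).Adj (Sum.inr u) (Sum.inr v) ↔ H.Adj u v := Iff.rfl
@[simp] lemma join_lr {u : V} {v : W} : (join G H).Adj (Sum.inl u) (Sum.inr v) := trivial
@[simp] lemma join_rl {u : V} {v : W} : (join G H).Adj (Sum.inr v) (Sum.inl u) := trivial
@[simp] lemma matching_adj {k : ℕ} {x y : Fin k × Fin 2} :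
    (matching k).Adj x y ↔ x.1 = y.1 ∧ x.2 ≠ y.2 := Iff.rfl

end adj

/-- Every triangle of the witness contains the hub. -/
lemma tri (k : ℕ) (x y z : Fin 1 ⊕ (Fin k × Fin 2 ⊕ Fin 5))
    (hxy : (Ggraph k).Adj x y) (hxz : (Ggraph k).Adj x z) (hyz : (Ggraph k).Adj y z) :
    x = Sum.inl 0 ∨ y = Sum.inl 0 ∨ z = Sum.inl 0 := by
  rcases x with x | (x | x)
  · left; congr 1; exact Subsingleton.elim _ _
  all_goals rcases y with y | (y | y)
  all_goals try (right; left; congr 1; exact Subsingleton.elim _ _)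
  all_goals rcases z with z | (z | z)
  all_goals try (right; right; congr 1; exact Subsingleton.elim _ _)
  all_goals simp only [Ggraph, join_rr, sum_adj, matching_adj] at hxy hxz hyz
  · exfalso; omega
  · exfalso
    simp only [starGraph_adj] at hxy hxz hyz
    omega

/-- If two adjacent vertices of the witness are both different from the hub then one of them has
only the other one and the hub as neighbours. -/
lemma nopend (k : ℕ) (y z : Fin 1 ⊕ (Fin k × Fin 2 ⊕ Fin 5))
    (hy : y ≠ Sum.inl 0) (hz : z ≠ Sum.inl 0) (hyz : (Ggraph k).Adj y z) :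
    (∀ w, (Ggraph k).Adj y w → w = Sum.inl 0 ∨ w = z) ∨
    (∀ w, (Ggraph k).Adj z w → w = Sum.inl 0 ∨ w = y) := by
  rcases y with y | (y | y)
  · exact absurd (by congr 1; exact Subsingleton.elim _ _) hy
  · rcases z with z | (z | z)
    · exact absurd (by congr 1; exact Subsingleton.elim _ _) hz
    · left
      rintro (w | (w | w)) hw
      · left; congr 1; exact Subsingleton.elim _ _
      · right
        simp only [Ggraph, join_rr, sum_adj, matching_adj] at hyz hw
        obtain ⟨w1, w2⟩ := w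
        obtain ⟨z1, z2⟩ := z
        obtain ⟨y1, y2⟩ := y
        simp only at hyz hw
        congr 2
        ext1
        · exact hw.1.symm.trans hyz.1
        · simp only; omega
      · simp [Ggraph] at hw
    · simp [Ggraph] at hyz
  · rcases z with z | (z | z)
    · exact absurd (by congr 1; exact Subsingleton.elim _ _) hz
    · simp [Ggraph] at hyz
    · simp only [Ggraph, join_rr, sum_adj, starGraph_adj] at hyz
      obtain ⟨hne, h0 | h0⟩ := hyz
      · subst h0
        right
        rintro (w | (w | w)) hw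
        · left; congr 1; exact Subsingleton.elim _ _
        · simp [Ggraph] at hw
        · right
          simp only [Ggraph, join_rr, sum_adj, starGraph_adj] at hw
          congr 2
          omega
      · subst h0
        left
        rintro (w | (w | w)) hw
        · left; congr 1; exact Subsingleton.elim _ _
        · simp [Ggraph] at hw
        · right
          simp only [Ggraph, join_rr, sum_adj, starGraph_adj] at hw
          congr 2
          omega

/-- A triangle with a pendant vertex at each of its vertices gives a copy of the net. -/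
lemma net_copy {V : Type*} {G : SimpleGraph V} (f : Fin 6 → V) (hf : Function.Injective f)
    (h01 : G.Adj (f 0) (f 1)) (h02 : G.Adj (f 0) (f 2)) (h12 : G.Adj (f 1) (f 2))
    (h03 : G.Adj (f 0) (f 3)) (h14 : G.Adj (f 1) (f 4)) (h25 : G.Adj (f 2) (f 5)) :
    net.IsContained G := by
  refine ⟨⟨⟨f, ?_⟩, hf⟩⟩
  intro a b hab
  simp only [net, fromEdgeSet_adj, Set.mem_insert_iff, Set.mem_singleton_iff, Sym2.eq_iff] at hab
  obtain ⟨h | h | h | h | h | h, _⟩ := hab <;> rcases h with ⟨rfl, rfl⟩ | ⟨rfl, rfl⟩ <;>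
    first | assumption | (apply SimpleGraph.Adj.symm; assumption)

lemma net_adj (a b : Fin 6) : net.Adj a b ↔
    ((a = 0 ∧ b = 1 ∨ a = 1 ∧ b = 0) ∨ (a = 0 ∧ b = 2 ∨ a = 2 ∧ b = 0) ∨
      (a = 1 ∧ b = 2 ∨ a = 2 ∧ b = 1) ∨ (a = 0 ∧ b = 3 ∨ a = 3 ∧ b = 0) ∨
      (a = 1 ∧ b = 4 ∨ a = 4 ∧ b = 1) ∨ (a = 2 ∧ b = 5 ∨ a = 5 ∧ b = 2)) ∧ a ≠ b := by
  simp only [net, fromEdgeSet_adj, Set.mem_insert_iff, Set.mem_singleton_iff, Sym2.eq_iff]

/-- The witness contains no net. -/
lemma G_free (k : ℕ) : net.Free (Ggraph k) := by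
  rintro ⟨f⟩
  have inj : ∀ a b, f a = f b → a = b := fun a b h => f.injective h
  have hom : ∀ a b, net.Adj a b → (Ggraph k).Adj (f a) (f b) := fun a b h => f.toHom.map_rel h
  have h01 := hom 0 1 (by rw [net_adj]; decide)
  have h02 := hom 0 2 (by rw [net_adj]; decide)
  have h12 := hom 1 2 (by rw [net_adj]; decide)
  have h03 := hom 0 3 (by rw [net_adj]; decide)
  have h14 := hom 1 4 (by rw [net_adj]; decide)
  have h25 := hom 2 5 (by rw [net_adj]; decide)
  have ne : ∀ a b : Fin 6, a ≠ b → f a ≠ f b := fun a b hab h => hab (inj a b h)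
  -- a non-hub triangle vertex whose only non-hub neighbour is in the triangle
  rcases tri k _ _ _ h01 h02 h12 with h | h | h
  · rcases nopend k (f 1) (f 2) (h ▸ ne 1 0 (by decide)) (h ▸ ne 2 0 (by decide)) h12 with h' | h'
    · rcases h' _ h14 with h'' | h''
      · exact ne 4 0 (by decide) (h''.trans h.symm)
      · exact ne 4 2 (by decide) h''
    · rcases h' _ h25 with h'' | h''
      · exact ne 5 0 (by decide) (h''.trans h.symm)
      · exact ne 5 1 (by decide) h''
  · rcases nopend k (f 0) (f 2) (h ▸ ne 0 1 (by decide)) (h ▸ ne 2 1 (by decide)) h02 with h' | h'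
    · rcases h' _ h03 with h'' | h''
      · exact ne 3 1 (by decide) (h''.trans h.symm)
      · exact ne 3 2 (by decide) h''
    · rcases h' _ h25 with h'' | h''
      · exact ne 5 1 (by decide) (h''.trans h.symm)
      · exact ne 5 0 (by decide) h''
  · rcases nopend k (f 0) (f 1) (h ▸ ne 0 2 (by decide)) (h ▸ ne 1 2 (by decide)) h01 with h' | h'
    · rcases h' _ h03 with h'' | h''
      · exact ne 3 2 (by decide) (h''.trans h.symm)
      · exact ne 3 1 (by decide) h''
    · rcases h' _ h14 with h'' | h''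
      · exact ne 4 2 (by decide) (h''.trans h.symm)
      · exact ne 4 0 (by decide) h''

lemma Fin2_ne (a : Fin 2) : a + 1 ≠ a := by omega

lemma sat_pp (k : ℕ) (i j : Fin k) (a b : Fin 2) (hij : i ≠ j) :
    net.IsContained (Ggraph k ⊔ SimpleGraph.edge (Sum.inr (Sum.inl (i, a)))
      (Sum.inr (Sum.inl (j, b)))) := by
  have ha := Fin2_ne a
  have hb := Fin2_ne b
  refine net_copy ![Sum.inl 0, Sum.inr (Sum.inl (i, a)), Sum.inr (Sum.inl (j, b)),
    Sum.inr (Sum.inr 0), Sum.inr (Sum.inl (i, a + 1)), Sum.inr (Sum.inl (j, b + 1))] ?_ ?_ ?_ ?_ ?_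
      ?_ ?_
  · intro x y hxy
    fin_cases x <;> fin_cases y <;> simp_all [eq_comm]
  all_goals simp_all [Ggraph, edge_adj, eq_comm]

lemma sat_pc (k : ℕ) (i : Fin k) (a : Fin 2) :
    net.IsContained (Ggraph k ⊔ SimpleGraph.edge (Sum.inr (Sum.inl (i, a)))
      (Sum.inr (Sum.inr 0))) := by
  have ha := Fin2_ne a
  refine net_copy ![Sum.inl 0, Sum.inr (Sum.inl (i, a)), Sum.inr (Sum.inr 0),
    Sum.inr (Sum.inr 1), Sum.inr (Sum.inl (i, a + 1)), Sum.inr (Sum.inr 2)] ?_ ?_ ?_ ?_ ?_
      ?_ ?_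
  · intro x y hxy
    fin_cases x <;> fin_cases y <;> simp_all [eq_comm]
  all_goals simp_all [Ggraph, edge_adj, eq_comm]

lemma sat_pl (k : ℕ) (i : Fin k) (a : Fin 2) (s : Fin 5) (hs : s ≠ 0) :
    net.IsContained (Ggraph k ⊔ SimpleGraph.edge (Sum.inr (Sum.inl (i, a)))
      (Sum.inr (Sum.inr s))) := by
  have ha := Fin2_ne a
  obtain ⟨l, hl0, hls⟩ : ∃ l : Fin 5, l ≠ 0 ∧ l ≠ s := by revert s; decide
  refine net_copy ![Sum.inl 0, Sum.inr (Sum.inl (i, a)), Sum.inr (Sum.inr s),
    Sum.inr (Sum.inr l), Sum.inr (Sum.inl (i, a + 1)), Sum.inr (Sum.inr 0)] ?_ ?_ ?_ ?_ ?_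
      ?_ ?_
  · intro x y hxy
    fin_cases x <;> fin_cases y <;> simp_all [eq_comm]
  all_goals simp_all [Ggraph, edge_adj, eq_comm]

lemma sat_ll (k : ℕ) (s t : Fin 5) (hs : s ≠ 0) (ht : t ≠ 0) (hst : s ≠ t) :
    net.IsContained (Ggraph k ⊔ SimpleGraph.edge (Sum.inr (Sum.inr s))
      (Sum.inr (Sum.inr t))) := by
  obtain ⟨p, hp0, hps, hpt⟩ : ∃ p : Fin 5, p ≠ 0 ∧ p ≠ s ∧ p ≠ t := by
    clear hs ht hst
    revert s t; decide
  obtain ⟨q, hq0, hqs, hqt, hpq⟩ : ∃ q : Fin 5, q ≠ 0 ∧ q ≠ s ∧ q ≠ t ∧ p ≠ q := by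
    clear hs ht hst hp0 hps hpt
    revert s t p; decide
  refine net_copy ![Sum.inr (Sum.inr s), Sum.inr (Sum.inr 0), Sum.inl 0,
    Sum.inr (Sum.inr t), Sum.inr (Sum.inr p), Sum.inr (Sum.inr q)] ?_ ?_ ?_ ?_ ?_
      ?_ ?_
  · intro x y hxy
    fin_cases x <;> fin_cases y <;> simp_all [eq_comm]
  all_goals simp_all [Ggraph, edge_adj, eq_comm]

/-- The witness is `K_3^3`-saturated. -/
lemma G_sat (k : ℕ) : IsSaturated net (Ggraph k) := by
  refine ⟨G_free k, ?_⟩
  rintro (u | (⟨i, a⟩ | s)) (v | (⟨j, b⟩ | t)) hne hadj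
  · exact absurd (by congr 1; exact Subsingleton.elim _ _) hne
  · simp [Ggraph] at hadj
  · simp [Ggraph] at hadj
  · simp [Ggraph] at hadj
  · refine sat_pp k i j a b ?_
    rintro rfl
    apply hadj
    simp only [Ggraph, join_rr, sum_adj, matching_adj, true_and]
    rintro rfl
    exact hne rfl
  · by_cases ht : t = 0
    · subst ht; exact sat_pc k i a
    · exact sat_pl k i a t ht
  · simp [Ggraph] at hadj
  · rw [edge_comm]
    by_cases hs : s = 0
    · subst hs; exact sat_pc k j b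
    · exact sat_pl k j b s hs
  · refine sat_ll k s t ?_ ?_ ?_
    · rintro rfl
      apply hadj
      simp only [Ggraph, join_rr, sum_adj, starGraph_adj]
      refine ⟨?_, by simp⟩
      rintro rfl
      exact hne rfl
    · rintro rfl
      apply hadj
      simp only [Ggraph, join_rr, sum_adj, starGraph_adj]
      refine ⟨?_, by simp⟩
      rintro rfl
      exact hne rfl
    · rintro rfl
      exact hne rfl

/-- The witness contains no `K_4`, so it is not isomorphic to `H_n`. -/
lemma not_iso (k n : ℕ) : IsEmpty (Ggraph k ≃g Hgraph n) := by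
  refine ⟨fun e => ?_⟩
  let w : Fin 4 → (Fin 1 ⊕ (Fin ((n - 4) / 2) × Fin 2 ⊕ Fin 3)) :=
    ![Sum.inl 0, Sum.inr (Sum.inr 0), Sum.inr (Sum.inr 1), Sum.inr (Sum.inr 2)]
  have hw : ∀ a b : Fin 4, a ≠ b → (Hgraph n).Adj (w a) (w b) := by
    intro a b hab
    fin_cases a <;> fin_cases b <;> simp_all [w, Hgraph]
  have hg : ∀ a b : Fin 4, a ≠ b → (Ggraph k).Adj (e.symm (w a)) (e.symm (w b)) := by
    intro a b hab
    exact e.symm.map_adj_iff.mpr (hw a b hab)
  have key : ∀ a b c : Fin 4, a ≠ b → a ≠ c → b ≠ c →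
      e.symm (w a) = Sum.inl 0 ∨ e.symm (w b) = Sum.inl 0 ∨ e.symm (w c) = Sum.inl 0 :=
    fun a b c hab hac hbc => tri k _ _ _ (hg a b hab) (hg a c hac) (hg b c hbc)
  have uniq : ∀ a b : Fin 4, a ≠ b → e.symm (w a) = Sum.inl 0 → e.symm (w b) = Sum.inl 0 →
      False := by
    intro a b hab h1 h2
    have := hg a b hab
    rw [h1, h2] at this
    exact this.ne rfl
  rcases key 0 1 2 (by decide) (by decide) (by decide) with h | h | h
  · rcases key 1 2 3 (by decide) (by decide) (by decide) with h' | h' | h'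
    · exact uniq 0 1 (by decide) h h'
    · exact uniq 0 2 (by decide) h h'
    · exact uniq 0 3 (by decide) h h'
  · rcases key 0 2 3 (by decide) (by decide) (by decide) with h' | h' | h'
    · exact uniq 1 0 (by decide) h h'
    · exact uniq 1 2 (by decide) h h'
    · exact uniq 1 3 (by decide) h h'
  · rcases key 0 1 3 (by decide) (by decide) (by decide) with h' | h' | h'
    · exact uniq 2 0 (by decide) h h'
    · exact uniq 2 1 (by decide) h h'
    · exact uniq 2 3 (by decide) h h'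

open Classical in
lemma two_mul_edges {V : Type*} [Fintype V] (G : SimpleGraph V) :
    2 * G.edgeSet.ncard = ∑ u : V, ∑ v : V, if G.Adj u v then 1 else 0 := by
  have h := G.sum_degrees_eq_twice_card_edges
  rw [← SimpleGraph.coe_edgeFinset G, Set.ncard_coe_finset, ← h]
  refine Finset.sum_congr rfl fun u _ => ?_
  rw [← SimpleGraph.card_neighborFinset_eq_degree, SimpleGraph.neighborFinset_eq_filter,
    Finset.card_filter]

open Classical in
lemma count (m c : ℕ) (X : SimpleGraph (Fin c)) :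
    2 * (join (⊤ : SimpleGraph (Fin 1)) ((matching m).sum X)).edgeSet.ncard =
      2 * (3 * m + c) + ∑ u : Fin c, ∑ v : Fin c, if X.Adj u v then 1 else 0 := by
  rw [two_mul_edges]
  simp only [Fintype.sum_sum_type, Fintype.sum_prod_type, Fin.sum_univ_two, join_ll, join_rr,
    join_lr, join_rl, sum_adj, matching_adj, if_true]
  simp [Finset.sum_add_distrib]
  ring

/-- The witness and `H_n` have the same number of edges. -/
lemma edges_eq (k : ℕ) :
    (Ggraph k).edgeSet.ncard = (Hgraph (2 * k + 6)).edgeSet.ncard := by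
  classical
  have h1 := count k 5 (SimpleGraph.starGraph (0 : Fin 5))
  have h2 := count ((2 * k + 6 - 4) / 2) 3 (⊤ : SimpleGraph (Fin 3))
  have e1 : (∑ u : Fin 5, ∑ v : Fin 5,
      @ite ℕ ((SimpleGraph.starGraph (0 : Fin 5)).Adj u v) (Classical.propDecidable _) 1 0) =
        8 := by
    trans (∑ u : Fin 5, ∑ v : Fin 5, if (u ≠ v ∧ (u = 0 ∨ v = 0)) then 1 else 0)
    · refine Finset.sum_congr rfl fun u _ => Finset.sum_congr rfl fun v _ => ?_
      simp only [starGraph_adj]
    · decide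
  have e2 : (∑ u : Fin 3, ∑ v : Fin 3,
      @ite ℕ ((⊤ : SimpleGraph (Fin 3)).Adj u v) (Classical.propDecidable _) 1 0) = 6 := by
    trans (∑ u : Fin 3, ∑ v : Fin 3, if u ≠ v then 1 else 0)
    · refine Finset.sum_congr rfl fun u _ => Finset.sum_congr rfl fun v _ => ?_
      simp only [top_adj]
    · decide
  rw [e1] at h1
  rw [e2] at h2
  have h3 : (2 * k + 6 - 4) / 2 = k + 1 := by omega
  change 2 * (Ggraph k).edgeSet.ncard = _ at h1
  change 2 * (Hgraph (2 * k + 6)).edgeSet.ncard = _ at h2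
  omega

/-- Being `F`-saturated is invariant under isomorphism. -/
lemma IsSaturated.iso {α V W : Type*} {F : SimpleGraph α} {G : SimpleGraph V}
    {G' : SimpleGraph W} (e : G ≃g G') (h : IsSaturated F G) : IsSaturated F G' := by
  refine ⟨(SimpleGraph.free_congr_right e).mp h.1, ?_⟩
  intro u v huv hadj
  have h1 := h.2 (e.symm u) (e.symm v) (fun h => huv (e.symm.injective h))
    (fun h => hadj (e.symm.map_adj_iff.mp h))
  refine h1.trans ⟨⟨⟨e, ?_⟩, e.injective⟩⟩
  intro a b hab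
  rw [sup_adj, edge_adj] at hab ⊢
  rcases hab with hab | ⟨⟨rfl, rfl⟩ | ⟨rfl, rfl⟩, hne⟩
  · left; exact e.map_adj_iff.mpr hab
  · right
    refine ⟨Or.inl ⟨by simp, by simp⟩, ?_⟩
    simpa using huv
  · right
    refine ⟨Or.inr ⟨by simp, by simp⟩, ?_⟩
    simpa using huv.symm

lemma ncard_edgeSet_iso {V W : Type*} {G : SimpleGraph V} {G' : SimpleGraph W} (e : G ≃g G') :
    G.edgeSet.ncard = G'.edgeSet.ncard :=
  Set.ncard_congr' e.mapEdgeSet

/-- For every even `n ≥ 6` there is a `K_3^3`-saturated graph on `n` vertices with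
`sat(n, K_3^3)` edges which is not isomorphic to `H_n`. -/
theorem result (n : ℕ) (hn : 6 ≤ n) (heven : Even n) :
    ∃ G : SimpleGraph (Fin n), IsMinSaturated net G ∧ IsEmpty (G ≃g Hgraph n) := by
  obtain ⟨k, rfl⟩ : ∃ k, n = 2 * k + 6 := by
    obtain ⟨r, hr⟩ := heven
    exact ⟨r - 3, by omega⟩
  have hcard : Fintype.card (Fin 1 ⊕ (Fin k × Fin 2 ⊕ Fin 5)) = 2 * k + 6 := by
    simp; ring
  let e := Fintype.equivFinOfCardEq hcard
  let G₁ : SimpleGraph (Fin (2 * k + 6)) := (Ggraph k).comap e.symm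
  have iso : G₁ ≃g Ggraph k := SimpleGraph.Iso.comap e.symm (Ggraph k)
  have hsat : IsSaturated net G₁ := IsSaturated.iso iso.symm (G_sat k)
  obtain ⟨G₀, hG₀, hmin⟩ := Set.exists_min_image
    {G : SimpleGraph (Fin (2 * k + 6)) | IsSaturated net G} (fun G => G.edgeSet.ncard)
    (Set.toFinite _) ⟨G₁, hsat⟩
  by_cases hiso : Nonempty (G₀ ≃g Hgraph (2 * k + 6))
  · obtain ⟨f⟩ := hiso
    refine ⟨G₁, ⟨hsat, fun G' hG' => ?_⟩, ⟨fun g => (not_iso k _).false (iso.symm.trans g)⟩⟩
    calc G₁.edgeSet.ncard = (Ggraph k).edgeSet.ncard := ncard_edgeSet_iso iso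
      _ = (Hgraph (2 * k + 6)).edgeSet.ncard := edges_eq k
      _ = G₀.edgeSet.ncard := (ncard_edgeSet_iso f).symm
      _ ≤ G'.edgeSet.ncard := hmin G' hG'
  · exact ⟨G₀, ⟨hG₀, fun G' hG' => hmin G' hG'⟩, not_nonempty_iff.mp hiso⟩

end Pool.Agent.Results.MP_645dd0_co.NotUnique
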